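import Pool.Agent.W287.DU.NF2

set_option autoImplicit false

namespace Pool.Agent.W287.DU.COHB

open Pool.Agent.W326.DU

/-- DU-COHB -/
theorem th (hN : PropNFP) : PropCOHB := Pool.Agent.W287.DU.NF2.cohb hN

end Pool.Agent.W287.DU.COHB
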