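import Pool.Agent.W287.DU.NFP

/-!
# DU-COHB and DU-NF2 (project DU, helper326)
-/

set_option autoImplicit false

namespace Pool.Agent.W287.DU.NF2

open Pool.Agent.W326.DU Pool.Agent.W287.DU.NFP

variable {M : Type} [AddCommGroup M] {S : Fin 10 → M →+ M}

theorem kap_anti : ∀ a b, kap a b = - kap b a := by decide

theorem adj_mm : ∀ k : Fin 4, adj (mm k) (mm (k + 1)) := by decide

theorem adj_pp : ∀ k : Fin 4, adj (pp k) (pp (k + 1)) := by decide

/-- the normal form for all ordered pairs -/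
theorem alt_form (hS : Reg adj S) {c : Fin 26 → M} {x : Fin 10 → M} {m : M}
    (h : ∀ i, c i = kap (eL i).1 (eL i).2 • S (eL i).1 (S (eL i).2 m) + e1 S x i)
    (a b : Fin 10) (hab : adj a b) :
    alt2 c a b = kap a b • S a (S b m) + (S a (x b) - S b (x a)) := by
  obtain ⟨i, hi | hi⟩ := hab
  · have h2 := h i
    have h3 := alt2_edge c i
    unfold e1 at h2
    rw [hi] at h2 h3
    simp only at h2 h3
    rw [h3, h2]
  · have h2 := h i
    have h3 := alt2_edge c i
    unfold e1 at h2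
    rw [hi] at h2 h3
    simp only at h2 h3
    rw [alt2_anti, h3, h2, kap_anti a b, hS.comm a b ⟨i, Or.inr hi⟩, neg_smul]
    abel

theorem core (hS : Reg adj S) {T : M →+ M} (hT : ∀ k x, T (S (mm k) x) = S (pp k) (T x))
    {c : Fin 26 → M} {b : Fin 4 → M} {x : Fin 10 → M} {m μ : M}
    (h : ∀ i, c i = kap (eL i).1 (eL i).2 • S (eL i).1 (S (eL i).2 m) + e1 S x i)
    (hg : ∀ k, g2 S T c b k = om S μ k) :
    T m + T m = m + μ ∧ ∃ z : Fin 4 → M,
      (∀ k, b k - (T (x (mm k)) - x (pp k)) = S (pp k) (z k)) ∧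
      ∀ k, z (k + 1) = z k + (kap (mm k) (mm (k + 1)) • T m -
        kap (pp k) (pp (k + 1)) • (m + μ)) := by
  have key : ∀ k, ∃ z, b (k + 1) - (T (x (mm (k + 1))) - x (pp (k + 1))) -
      S (pp (k + 1)) (kap (mm k) (mm (k + 1)) • T m - kap (pp k) (pp (k + 1)) • (m + μ)) =
        S (pp (k + 1)) z ∧ b k - (T (x (mm k)) - x (pp k)) = S (pp k) z := by
    intro k
    apply r2 hS (adj_pp k)
    have h1 := hg k
    unfold g2 om at h1
    rw [alt_form hS h _ _ (adj_mm k), alt_form hS h _ _ (adj_pp k)] at h1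
    simp only [map_sub, map_add, map_zsmul, smul_add, hT] at h1 ⊢
    rw [← sub_eq_zero] at h1 ⊢
    rw [← neg_eq_zero, ← h1]
    abel
  choose z hz1 hz2 using key
  have hz3 : ∀ k, z (k + 1) = z k + (kap (mm k) (mm (k + 1)) • T m -
        kap (pp k) (pp (k + 1)) • (m + μ)) := by
    intro k
    apply r1' hS (pp (k + 1))
    rw [← hz2 (k + 1), map_add, ← hz1 k]
    abel
  refine ⟨?_, z, hz2, hz3⟩
  have z0 := hz3 0
  have z1 := hz3 1
  have z2 := hz3 2
  have z3 := hz3 3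
  have a0 : kap (mm 0) (mm (0 + 1)) = 0 := by decide
  have a1 : kap (mm 1) (mm (1 + 1)) = 1 := by decide
  have a2 : kap (mm 2) (mm (2 + 1)) = 0 := by decide
  have a3 : kap (mm 3) (mm (3 + 1)) = 1 := by decide
  have b0 : kap (pp 0) (pp (0 + 1)) = 0 := by decide
  have b1 : kap (pp 1) (pp (1 + 1)) = 1 := by decide
  have b2 : kap (pp 2) (pp (2 + 1)) = 0 := by decide
  have b3 : kap (pp 3) (pp (3 + 1)) = 0 := by decide
  have e0 : (0 : Fin 4) + 1 = 1 := rfl
  have e1 : (1 : Fin 4) + 1 = 2 := rfl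
  have e2 : (2 : Fin 4) + 1 = 3 := rfl
  have e3 : (3 : Fin 4) + 1 = 0 := rfl
  rw [a0, b0, e0] at z0
  rw [a1, b1, e1] at z1
  rw [a2, b2, e2] at z2
  rw [a3, b3, e3] at z3
  rw [z2, z1, z0] at z3
  simp only [zero_smul, one_smul, sub_zero, add_zero] at z3
  rw [← sub_eq_zero] at z3 ⊢
  rw [← neg_eq_zero, ← z3]
  abel

/-- DU-COHB -/
theorem cohb (hN : PropNFP) : PropCOHB := by
  intro M _ S T hS hT hinj c b hc hg
  obtain ⟨x, m, h⟩ := hN M S hS c hc
  obtain ⟨h1, z, hz1, hz2⟩ := core (μ := 0) hS hT h (by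
    intro k
    rw [hg k]
    unfold om
    simp)
  rw [add_zero] at h1
  have hm : m = 0 := hinj m h1
  subst hm
  refine ⟨x, - z 0, fun i => ?_, fun k => ?_⟩
  · rw [h i]
    simp
  · have hz3 : ∀ k, z (k + 1) = z k := by
      intro k
      rw [hz2 k]
      simp
    have y1 : z 1 = z 0 := hz3 0
    have y2 : z 2 = z 0 := (hz3 1).trans y1
    have y3 : z 3 = z 0 := (hz3 2).trans y2
    have hk : z k = z 0 := by
      fin_cases k
      · rfl
      · exact y1
      · exact y2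
      · exact y3
    have h2 := hz1 k
    rw [hk] at h2
    unfold g1
    rw [map_neg, sub_neg_eq_add, ← h2]
    abel

/-- DU-NF2 -/
theorem th (hN : PropNFP) : PropNF2 := by
  intro M _ S T hS hT m c b hc hg
  obtain ⟨x, m₁, h⟩ := hN M S hS c hc
  obtain ⟨h1, -⟩ := core (μ := m) hS hT h hg
  refine ⟨m₁, ?_⟩
  rw [two_nsmul, h1]
  abel

end Pool.Agent.W287.DU.NF2
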