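import Pool.Agent.W326.DU.Stm

/-!
# DU-NFP: normal form of the 2-cocycles on the graph part (project DU, helper326)
-/

set_option autoImplicit false

namespace Pool.Agent.W287.DU.NFP

open Pool.Agent.W326.DU

/-! ### Consequences of `Reg` -/

section reg

variable {M : Type} [AddCommGroup M] {S : Fin 10 → M →+ M}

theorem adj_symm' {a b : Fin 10} (h : adj a b) : adj b a := by
  obtain ⟨i, h | h⟩ := h
  · exact ⟨i, Or.inr h⟩
  · exact ⟨i, Or.inl h⟩

theorem adj_ne {a b : Fin 10} (h : adj a b) : a ≠ b := by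
  rintro rfl
  revert a
  decide

theorem im_empty {U : Set (Fin 10)} (h : ∀ w, w ∉ U) : Im S U = ⊥ := by
  unfold Im
  simp [h]

theorem im_mono {U U' : Set (Fin 10)} (h : U ⊆ U') : Im S U ≤ Im S U' := by
  unfold Im
  exact biSup_mono fun _ hi => h hi

theorem im_single (b : Fin 10) : Im S {b} = (S b).range := by
  unfold Im
  simp

theorem im_pair (a b : Fin 10) : Im S {a, b} = (S a).range ⊔ (S b).range := by
  unfold Im
  rw [iSup_insert]
  simp

theorem r1 (hS : Reg adj S) (v : Fin 10) (x : M) (h : S v x = 0) : x = 0 := by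
  have h1 := hS.star ∅ v (Set.notMem_empty v) x (by
    rw [h]
    exact AddSubgroup.zero_mem _)
  rw [im_empty (fun w hw => hw.1)] at h1
  exact AddSubgroup.mem_bot.1 h1

theorem r1' (hS : Reg adj S) (v : Fin 10) {x y : M} (h : S v x = S v y) : x = y := by
  have : S v (x - y) = 0 := by rw [map_sub, h, sub_self]
  exact sub_eq_zero.1 (r1 hS v _ this)

theorem r2 (hS : Reg adj S) {a b : Fin 10} (hab : adj a b) {x y : M} (h : S a x = S b y) :
    ∃ z, x = S b z ∧ y = S a z := by
  have h1 := hS.star {b} a (by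
    rw [Set.mem_singleton_iff]
    exact adj_ne hab) x (by
    rw [h, im_single]
    exact ⟨y, rfl⟩)
  have h2 : x ∈ Im S {b} := im_mono (fun w hw => hw.1) h1
  rw [im_single] at h2
  obtain ⟨z, hz⟩ := h2
  refine ⟨z, hz.symm, ?_⟩
  apply r1' hS b
  rw [← h, ← hz]
  exact hS.comm a b hab z

theorem r3 (hS : Reg adj S) {v a b : Fin 10} (hva : adj v a) (hvb : adj v b) (hab : adj a b)
    {x y w : M} (h : S a x = S b y + S v w) :
    ∃ z p q, x = S b z + S v p ∧ y = S a z + S v q := by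
  have h1 := hS.star {b, v} a (by
    rw [Set.mem_insert_iff, Set.mem_singleton_iff]
    push Not
    exact ⟨adj_ne hab, (adj_ne hva).symm⟩) x (by
    rw [h, im_pair]
    exact AddSubgroup.add_mem _ (AddSubgroup.mem_sup_left ⟨y, rfl⟩)
      (AddSubgroup.mem_sup_right ⟨w, rfl⟩))
  have h2 : x ∈ Im S {b, v} := im_mono (fun w hw => hw.1) h1
  rw [im_pair] at h2
  obtain ⟨u1, ⟨z, hz⟩, u2, ⟨p, hp⟩, hx⟩ := AddSubgroup.mem_sup.1 h2
  have h3 : S b (y - S a z) = S v (S a p - w) := by
    rw [map_sub, map_sub, ← hS.comm a b hab z, hz, ← hS.comm a v (adj_symm' hva) p, hp]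
    have : S a u1 + S a u2 = S b y + S v w := by
      rw [← map_add, hx, h]
    rw [sub_eq_sub_iff_add_eq_add, ← this]
    abel
  obtain ⟨q, hq, -⟩ := r2 hS (adj_symm' hvb) h3
  refine ⟨z, p, q, ?_, ?_⟩
  · rw [hz, hp, hx]
  · rw [← hq]
    abel

end reg

/-! ### Combinatorics -/

theorem sg2_anti (i : Fin 26) (a b : Fin 10) : sg2 i a b = - sg2 i b a := by
  unfold sg2
  ring

theorem alt2_anti {M : Type} [AddCommGroup M] (w : Fin 26 → M) (a b : Fin 10) :
    alt2 w a b = - alt2 w b a := by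
  unfold alt2
  rw [← Finset.sum_neg_distrib]
  refine Finset.sum_congr rfl fun i _ => ?_
  rw [sg2_anti, neg_smul]

theorem sg2_edge : ∀ i k : Fin 26,
    sg2 k (eL i).1 (eL i).2 = if k = i then 1 else 0 := by decide

theorem alt2_edge {M : Type} [AddCommGroup M] (w : Fin 26 → M) (i : Fin 26) :
    alt2 w (eL i).1 (eL i).2 = w i := by
  unfold alt2
  simp only [sg2_edge, ite_smul, one_smul, zero_smul]
  simp

theorem tri_list : ∀ v a b : Fin 10, adj v a → adj v b → adj a b →
    ∃ j : Fin 16, tL j = (v, a, b) ∨ tL j = (v, b, a) ∨ tL j = (a, v, b) ∨ tL j = (a, b, v) ∨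
      tL j = (b, v, a) ∨ tL j = (b, a, v) := by
  decide +kernel

/-- the link of a vertex, as a path -/
def lk : Fin 10 → List (Fin 10) :=
  ![[1, 8, 6, 5, 3], [0, 8, 4, 9, 2], [1, 9, 6, 7, 3], [2, 7, 4, 5, 0],
    [1, 8, 7, 3, 5, 9], [0, 3, 4, 9, 6], [0, 5, 9, 2, 7, 8], [2, 3, 4, 8, 6],
    [0, 1, 4, 7, 6], [1, 2, 6, 5, 4]]

theorem lk_chain : ∀ v, List.IsChain adj (lk v) := by decide

theorem lk_mem : ∀ v a, adj v a ↔ a ∈ lk v := by decide

theorem lk_two : ∀ v, ∃ a b l, lk v = a :: b :: l := by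
  intro v
  fin_cases v <;> exact ⟨_, _, _, rfl⟩

/-! ### The proof -/

section main

variable {M : Type} [AddCommGroup M] {S : Fin 10 → M →+ M}

/-- the cocycle condition for all orderings -/
theorem coc {c : Fin 26 → M} (hc : ∀ j, e2 S c j = 0) (v a b : Fin 10) (hva : adj v a)
    (hvb : adj v b) (hab : adj a b) :
    S v (alt2 c a b) - S a (alt2 c v b) + S b (alt2 c v a) = 0 := by
  obtain ⟨j, hj⟩ := tri_list v a b hva hvb hab
  have h := hc j
  unfold e2 at h
  rcases hj with hj | hj | hj | hj | hj | hj <;> rw [hj] at h <;> simp only at h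
  · exact h
  · rw [alt2_anti c b a, map_neg] at h
    rw [← neg_eq_zero, ← h]
    abel
  · rw [alt2_anti c a v, map_neg] at h
    rw [← neg_eq_zero, ← h]
    abel
  · rw [alt2_anti c b v, alt2_anti c a v, map_neg, map_neg] at h
    rw [← h]
    abel
  · rw [alt2_anti c b v, alt2_anti c b a, map_neg, map_neg] at h
    rw [← h]
    abel
  · rw [alt2_anti c a v, alt2_anti c b v, alt2_anti c b a, map_neg, map_neg, map_neg] at h
    rw [← neg_eq_zero, ← h]
    abel

/-- one step along the link -/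
theorem step (hS : Reg adj S) {c : Fin 26 → M} (hc : ∀ j, e2 S c j = 0) {v a b : Fin 10}
    (hva : adj v a) (hvb : adj v b) (hab : adj a b) :
    ∃ z, (∃ p, alt2 c v a = S a z + S v p) ∧ ∃ p, alt2 c v b = S b z + S v p := by
  have h := coc hc v a b hva hvb hab
  have h1 : S a (alt2 c v b) = S b (alt2 c v a) + S v (alt2 c a b) := by
    rw [← sub_eq_zero, ← neg_eq_zero, ← h]
    abel
  obtain ⟨z, p, q, h2, h3⟩ := r3 hS hva hvb hab h1
  exact ⟨z, ⟨q, h3⟩, ⟨p, h2⟩⟩

theorem step' (hS : Reg adj S) {c : Fin 26 → M} (hc : ∀ j, e2 S c j = 0) {v a b : Fin 10}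
    (hva : adj v a) (hvb : adj v b) (hab : adj a b) {x : M}
    (hx : ∃ p, alt2 c v a = S a x + S v p) : ∃ p, alt2 c v b = S b x + S v p := by
  obtain ⟨z, ⟨p, hp⟩, ⟨q, hq⟩⟩ := step hS hc hva hvb hab
  obtain ⟨r, hr⟩ := hx
  have h1 : S a (z - x) = S v (r - p) := by
    rw [map_sub, map_sub, sub_eq_sub_iff_add_eq_add, ← hp, hr]
    abel
  obtain ⟨u, hu, -⟩ := r2 hS (adj_symm' hva) h1
  refine ⟨q + S b u, ?_⟩
  have h2 : z = x + S v u := by rw [← hu]; abel
  rw [hq, h2, map_add, map_add, hS.comm b v (adj_symm' hvb)]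
  abel

theorem chain_all {P : Fin 10 → Prop} {Q : Fin 10 → Prop}
    (hstep : ∀ a b, Q a → Q b → adj a b → P a → P b) :
    ∀ (l : List (Fin 10)), l.IsChain adj → (∀ a ∈ l, Q a) → ∀ a₀ l', l = a₀ :: l' → P a₀ →
      ∀ a ∈ l, P a := by
  intro l
  induction l with
  | nil =>
    intro _ _ a₀ l' h
    exact absurd h (by simp)
  | cons a l ih =>
    intro hch hQ a₀ l' h hP b hb
    obtain ⟨rfl, rfl⟩ := List.cons_eq_cons.1 h
    rcases List.mem_cons.1 hb with rfl | hb
    · exact hP
    · rcases l with _ | ⟨a₁, l₁⟩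
      · exact absurd hb (by simp)
      · rw [List.isChain_cons_cons] at hch
        refine ih hch.2 (fun x hx => hQ x (List.mem_cons_of_mem _ hx)) a₁ l₁ rfl ?_ b hb
        exact hstep _ _ (hQ _ List.mem_cons_self) (hQ a₁ (by simp)) hch.1 hP

theorem exists_x (hS : Reg adj S) {c : Fin 26 → M} (hc : ∀ j, e2 S c j = 0) (v : Fin 10) :
    ∃ x : M, ∀ a, adj v a → ∃ p, alt2 c v a = S a x + S v p := by
  obtain ⟨a, b, l, hl⟩ := lk_two v
  have hva : adj v a := (lk_mem v a).2 (by rw [hl]; simp)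
  have hvb : adj v b := (lk_mem v b).2 (by rw [hl]; simp)
  have hch := lk_chain v
  have hab : adj a b := by
    rw [hl, List.isChain_cons_cons] at hch
    exact hch.1
  obtain ⟨z, hz, -⟩ := step hS hc hva hvb hab
  refine ⟨z, fun a' ha' => ?_⟩
  refine chain_all (P := fun a => ∃ p, alt2 c v a = S a z + S v p) (Q := fun a => adj v a)
    (fun a b h1 h2 h3 h4 => step' hS hc h1 h2 h3 h4) (lk v) hch
    (fun a ha => (lk_mem v a).2 ha) a (b :: l) hl hz a' ((lk_mem v a').1 ha')

/-- the normal form -/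
theorem th (hP : PropP3) : PropNFP := by
  intro M _ S hS c hc
  choose x hx using fun v => exists_x hS hc v
  -- the coefficients on the edges
  have h1 : ∀ a b, adj a b → ∃ n, alt2 c a b = S b (x a) - S a (x b) + S a (S b n) := by
    intro a b hab
    obtain ⟨p, hp⟩ := hx a b hab
    obtain ⟨q, hq⟩ := hx b a (adj_symm' hab)
    rw [alt2_anti c b a] at hq
    have h2 : S a (p + x b) = S b (-q - x a) := by
      have h3 : alt2 c a b = - S a (x b) - S b q := by
        rw [← neg_neg (alt2 c a b), hq]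
        abel
      rw [map_add, map_sub, map_neg]
      rw [hp] at h3
      rw [← sub_eq_zero]
      have h4 : S b (x a) + S a p - (- S a (x b) - S b q) = 0 := by rw [h3, sub_self]
      rw [← h4]
      abel
    obtain ⟨n, hn, -⟩ := r2 hS hab h2
    refine ⟨n, ?_⟩
    rw [← hn, hp, map_add]
    abel
  have hadj : ∀ i : Fin 26, adj (eL i).1 (eL i).2 := fun i => ⟨i, Or.inl rfl⟩
  choose n hn using fun i : Fin 26 => h1 (eL i).1 (eL i).2 (hadj i)
  have hn' : ∀ a b, adj a b →
      alt2 c a b = S b (x a) - S a (x b) + S a (S b (alt2 n a b)) := by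
    intro a b hab
    obtain ⟨i, hi | hi⟩ := hab
    · have h2 := hn i
      have h3 := alt2_edge n i
      rw [hi] at h2 h3
      simp only at h2 h3
      rw [h2, h3]
    · have h2 := hn i
      have h3 := alt2_edge n i
      rw [hi] at h2 h3
      simp only at h2 h3
      rw [alt2_anti c a b, alt2_anti n a b, h2, h3, map_neg, map_neg,
        hS.comm a b ⟨i, Or.inr hi⟩]
      abel
  -- `n` is a cocycle
  have htri : ∀ j : Fin 16, adj (tL j).1 (tL j).2.1 ∧ adj (tL j).1 (tL j).2.2 ∧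
      adj (tL j).2.1 (tL j).2.2 := by decide
  have hcoc : ∀ j, alt2 n (tL j).2.1 (tL j).2.2 - alt2 n (tL j).1 (tL j).2.2
      + alt2 n (tL j).1 (tL j).2.1 = 0 := by
    intro j
    obtain ⟨h12, h13, h23⟩ := htri j
    have h := hc j
    unfold e2 at h
    generalize (tL j).1 = a at *
    generalize (tL j).2.1 = b at *
    generalize (tL j).2.2 = d at *
    rw [hn' b d h23, hn' a d h13, hn' a b h12] at h
    apply r1 hS a
    apply r1 hS b
    apply r1 hS d
    simp only [map_sub, map_add] at h ⊢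
    rw [hS.comm b a (adj_symm' h12) (S d (alt2 n a d))] at h
    rw [hS.comm d a (adj_symm' h13) (S b (alt2 n a b))] at h
    rw [hS.comm d b (adj_symm' h23) (alt2 n a b)] at h
    have g1 : ∀ y, S d (S b (S a y)) = S a (S b (S d y)) := by
      intro y
      rw [hS.comm b a (adj_symm' h12), hS.comm d a (adj_symm' h13), hS.comm d b (adj_symm' h23)]
    rw [g1, g1, g1]
    rw [hS.comm d a (adj_symm' h13), hS.comm d b (adj_symm' h23), hS.comm b a (adj_symm' h12)] at h
    rw [← h]
    abel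
  obtain ⟨r, m, hr⟩ := hP M n hcoc
  refine ⟨fun v => S v (r v) - x v, m, fun i => ?_⟩
  have h2 := hn i
  rw [alt2_edge] at h2
  rw [h2, hr i]
  unfold e1
  simp only [map_sub, map_add, map_zsmul]
  rw [hS.comm (eL i).2 (eL i).1 (adj_symm' (hadj i))]
  abel

end main

end Pool.Agent.W287.DU.NFP
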